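import Pool.Agent.helper12.OB.SpecC

/-!
# Project ob (MP_baa4d7_al), row MTC
-/

set_option autoImplicit false

namespace Pool.Agent.OB

open Pool.Agent.helper58.DC Pool.Agent.DI Pool.Agent.GR

theorem MTC_reg {G : Type} [Group G] (p : ℕ) (hp : p.Prime) (g : G) (hg : PReg p g) (u r : ℕ)
    (h : (g ^ u) ^ (p ^ r) = 1) : g ^ u = 1 := by
  have h1 : orderOf (g ^ u) ∣ p ^ r := orderOf_dvd_of_pow_eq_one h
  obtain ⟨j, _, hj⟩ := (Nat.dvd_prime_pow hp).1 h1
  rcases Nat.eq_zero_or_pos j with h0 | h0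
  · rw [h0, pow_zero] at hj
    exact orderOf_eq_one_iff.1 hj
  · exfalso
    apply hg
    have h2 : p ∣ orderOf (g ^ u) := by
      rw [hj]
      exact dvd_pow_self p h0.ne'
    exact h2.trans (orderOf_pow_dvd u)

theorem MTC_zero (M : Ideal (integralClosure ℤ ℂ)) (hM : M.IsMaximal) : InM M 0 :=
  ⟨0, 1, M.zero_mem, fun h => hM.ne_top ((Ideal.eq_top_iff_one M).2 h), by simp⟩

theorem MTC_sub (M : Ideal (integralClosure ℤ ℂ)) (hM : M.IsMaximal) (x y : ℂ) (hx : InM M x) (hy : InM M y) :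
    InM M (x - y) := by
  obtain ⟨a, b, ha, hb, h1⟩ := hx
  obtain ⟨c, d, hc, hd, h2⟩ := hy
  have hpr := hM.isPrime
  refine ⟨a * d - c * b, b * d, M.sub_mem (M.mul_mem_right _ ha) (M.mul_mem_right _ hc), ?_, ?_⟩
  · intro h
    rcases hpr.mem_or_mem h with h3 | h3
    · exact hb h3
    · exact hd h3
  · push_cast
    rw [← h1, ← h2]
    ring

theorem MTC (hPPT : PPT_stmt) : MTC_stmt := by
  intro p a M hS G _ _ ζ hsing hcen
  have _ := hPPT
  have hp := hS.pr
  have hG : Nat.card G ≠ 0 := Nat.card_pos.ne'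
  obtain ⟨r, m, hm, hrm⟩ := Nat.exists_eq_pow_mul_and_not_dvd hG p hp.one_lt.ne'
  have hcop : Nat.Coprime (p ^ r) m := Nat.Coprime.pow_left r ((Nat.Prime.coprime_iff_not_dvd hp).2 hm)
  obtain ⟨k, hk1, hk2⟩ := Nat.chineseRemainder hcop 1 p
  obtain ⟨u, hu1, hu2⟩ := Nat.chineseRemainder hcop 1 0
  obtain ⟨w, hw1, hw2⟩ := Nat.chineseRemainder hcop 0 1
  have hum : m ∣ u := (Nat.modEq_zero_iff_dvd).1 hu2
  have hwp : p ^ r ∣ w := (Nat.modEq_zero_iff_dvd).1 hw1
  have huw : u + w ≡ 1 [MOD Nat.card G] := by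
    rw [hrm]
    refine (Nat.modEq_and_modEq_iff_modEq_mul hcop).1 ⟨?_, ?_⟩
    · have := hu1.add hw1
      simpa using this
    · have := hu2.add hw2
      simpa using this
  refine ⟨k, ?_, fun b => ?_⟩
  · rw [hrm]
    refine Nat.Coprime.mul_right ?_ ?_
    · have := hk1.gcd_eq
      rw [Nat.Coprime, this]
      exact Nat.gcd_one_left _
    · have := hk2.gcd_eq
      rw [Nat.Coprime, this]
      exact (Nat.Prime.coprime_iff_not_dvd hp).2 hm
  · have hone : ∀ x : G, x ^ Nat.card G = 1 := fun x => pow_card_eq_one'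
    have hmod : ∀ (x : G) (i j : ℕ), i ≡ j [MOD Nat.card G] → x ^ i = x ^ j := by
      intro x i j h
      exact pow_eq_pow_iff_modEq.2 (h.of_dvd (orderOf_dvd_natCard x))
    set b₁ := b ^ u with hb₁
    set b₂ := b ^ w with hb₂
    set q := p ^ a with hq
    have hb : b₁ * b₂ = b := by
      rw [hb₁, hb₂, ← pow_add, hmod b _ _ huw, pow_one]
    have hcomm : Commute b₁ b₂ := (Commute.refl b).pow_pow u w
    have hb1p : b₁ ^ (p ^ r) = 1 := by
      obtain ⟨u', hu'⟩ := hum
      rw [hb₁, ← pow_mul, hu']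
      have : m * u' * p ^ r = Nat.card G * u' := by rw [hrm]; ring
      rw [this, pow_mul, hone, one_pow]
    have hb2m : b₂ ^ m = 1 := by
      obtain ⟨w', hw'⟩ := hwp
      rw [hb₂, ← pow_mul, hw']
      have : p ^ r * w' * m = Nat.card G * w' := by rw [hrm]; ring
      rw [this, pow_mul, hone, one_pow]
    have hPE : PEl p b₁ := ⟨r, hb1p⟩
    set c := b₂ ^ (p * q) with hc
    have e1 : b ^ (p * q) = b₁ ^ (p * q) * c := by
      conv_lhs => rw [← hb]
      exact hcomm.mul_pow _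
    have e2 : (b ^ q) ^ k = b₁ ^ (q * k) * c := by
      conv_lhs => rw [← hb]
      rw [← pow_mul, hcomm.mul_pow, hc]
      congr 1
      have h1 : q * k ≡ p * q [MOD m] := by
        rw [mul_comm p q]
        exact hk2.mul_left q
      have h2 : orderOf b₂ ∣ m := orderOf_dvd_of_pow_eq_one hb2m
      exact pow_eq_pow_iff_modEq.2 (h1.of_dvd h2)
    have hb1c : b₁ * c = c * b₁ := (hcomm.pow_right (p * q)).eq
    show InM M (ζ (b ^ (p * q)) - ζ ((b ^ q) ^ k))
    have hz := MTC_zero M hS.max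
    by_cases h1 : InM M (ζ (b ^ (p * q)))
    · by_cases h2 : InM M (ζ ((b ^ q) ^ k))
      · exact MTC_sub M hS.max _ _ h1 h2
      · have hr : PReg p ((b ^ q) ^ k) := by
          by_contra hn
          exact h2 (hsing _ hn)
        have h3 : ((b ^ q) ^ k) ^ u = b₁ ^ (q * k) := by
          rw [← pow_mul, ← pow_mul, hb₁, ← pow_mul]
          congr 1
          ring
        have h4 : b₁ ^ (q * k) = 1 := by
          rw [← h3]
          refine MTC_reg p hp _ hr u r ?_
          rw [h3, ← pow_mul, mul_comm (q * k), pow_mul, hb1p, one_pow]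
        have h5 : (b ^ q) ^ k = c := by rw [e2, h4, one_mul]
        have h6 : b₁ ^ q = 1 := by
          rw [h5] at h2
          exact hcen c h2 b₁ hb1c hPE
        have h7 : b ^ (p * q) = c := by rw [e1, mul_comm p q, pow_mul, h6, one_pow, one_mul]
        rw [h5, h7, sub_self]
        exact hz
    · have hr : PReg p (b ^ (p * q)) := by
        by_contra hn
        exact h1 (hsing _ hn)
      have h3 : (b ^ (p * q)) ^ u = b₁ ^ (p * q) := by
        rw [← pow_mul, hb₁, ← pow_mul]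
        congr 1
        ring
      have h4 : b₁ ^ (p * q) = 1 := by
        rw [← h3]
        refine MTC_reg p hp _ hr u r ?_
        rw [h3, ← pow_mul, mul_comm (p * q), pow_mul, hb1p, one_pow]
      have h5 : b ^ (p * q) = c := by rw [e1, h4, one_mul]
      have h6 : b₁ ^ q = 1 := by
        rw [h5] at h1
        exact hcen c h1 b₁ hb1c hPE
      have h7 : (b ^ q) ^ k = c := by rw [e2, pow_mul, h6, one_pow, one_mul]
      rw [h5, h7, sub_self]
      exact hz

end Pool.Agent.OB
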